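import Pool.Agent.Work.MP_c9ff92_pr.Assembly

/-!
# Continuity and strict monotonicity of the critical curves of the frog model

On every countable infinite connected graph of bounded degree the critical density
`t ↦ λ_c(t)` and the critical lifetime `λ ↦ t_c(λ)` of the frog model with death are continuous on
`(0, ∞)` with values in `(0, ∞]`, and strictly decreasing wherever they are finite.
-/

open MeasureTheory ProbabilityTheory Set
open scoped ENNReal NNReal

noncomputable section

namespace Pool.Agent.Results.MP_c9ff92_pr.CriticalCurves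

open Pool.Agent.Frog

theorem result {V : Type*} [Countable V] [Infinite V] [MeasurableSpace V]
    [DiscreteMeasurableSpace V] (G : SimpleGraph V) [G.LocallyFinite] (hG : G.Connected)
    (D : ℕ) (hD : ∀ v, G.degree v ≤ D) (o : V) :
    (∀ t, 0 < t → 0 < lambdaC G o t) ∧
    ContinuousOn (lambdaC G o) (Ioi 0) ∧
    (∀ s t, 0 < s → s < t → lambdaC G o s ≠ ⊤ → lambdaC G o t < lambdaC G o s) ∧
    (∀ s t, 0 < s → 0 < t → lambdaC G o s ≠ ⊤ → lambdaC G o t ≠ ⊤) ∧
    (∀ l, 0 < l → 0 < tC G o l) ∧
    ContinuousOn (tC G o) (Ioi 0) ∧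
    (∀ l m, 0 < l → l < m → tC G o l ≠ ⊤ → tC G o m < tC G o l) := by
  classical
  have hD0 : 0 < D := (degree_pos' hG o).trans_le (hD o)
  exact critical_curves (theta G o) (KB D) (fun l l' t t' htt h => theta_A hG o l l' t t' htt h)
    (continuousOn_KB hD0)
    (fun l l' t t' hl hll ht' htt h => theta_B hG hD o l l' t t' hl hll ht' htt h)
    (fun l t h => theta_eq_zero G hG o l t h) (lambdaC G o) (tC G o) (fun _ => rfl) fun _ => rfl

end Pool.Agent.Results.MP_c9ff92_pr.CriticalCurves
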