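import Pool.Agent.Work.MP_c9ff92_pr.Fri.Main
import Pool.Agent.Work.MP_c9ff92_pr.Fri.I_CUT
import Pool.Agent.Work.MP_c9ff92_pr.Fri.I_GOOD
import Pool.Agent.Work.MP_c9ff92_pr.Fri.I_HIGH3
import Pool.Agent.Work.MP_c9ff92_pr.Fri.I_LOW
import Pool.Agent.Work.MP_c9ff92_pr.Fri.I_CORE
import Pool.Agent.Work.MP_c9ff92_pr.Fri.I_DER
import Pool.Agent.Work.MP_c9ff92_pr.Fri.I_MECKE2
import Pool.Agent.Work.MP_c9ff92_pr.Fri.I_PIV
import Pool.Agent.Work.MP_c9ff92_pr.Fri.I_UNI3
import Pool.Agent.Work.MP_c9ff92_pr.Fri.I_ESS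
import Pool.Agent.Work.MP_c9ff92_pr.Fri.I_STEP
import Pool.Agent.Work.MP_c9ff92_pr.Fri.I_ESC
import Pool.Agent.Work.MP_c9ff92_pr.Fri.I_EXIT
import Pool.Agent.Work.MP_c9ff92_pr.Fri.I_START
import Pool.Agent.Work.MP_c9ff92_pr.Fri.I_PERC
import Pool.Agent.Work.MP_c9ff92_pr.Fri.I_REPL
import Pool.Agent.Work.MP_c9ff92_pr.Fri.I_COPY2
import Pool.Agent.Work.MP_c9ff92_pr.Fri.I_HEAT

/-!
# The critical curves of the frog model on transitive graphs

On every infinite connected locally finite transitive graph with balls of size at least `c n ^ 3`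
(for instance of superpolynomial growth, amenable or not), the critical density `t ↦ λ_c(t)` and
the critical lifetime `λ ↦ t_c(λ)` of the frog model with death are finite, continuous and
strictly decreasing on `(0, ∞)`. The same holds on every transitive graph on which the critical
lifetimes are finite (known for superlinear polynomial growth).
-/

open MeasureTheory ProbabilityTheory Set
open scoped ENNReal NNReal

noncomputable section

namespace Pool.Agent.Results.MP_c9ff92_pr.TransitiveGraphs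

open Pool.Agent.Frog Pool.Agent.Fri

universe u

theorem ess : SEss.{u} := I_ESS.prf I_MECKE2.prf I_PIV.prf I_UNI3.prf

theorem step : SStep.{u} := I_STEP.prf I_CUT.prf I_DER.prf I_PIV.prf ess

theorem perc : SPerc.{u} :=
  I_PERC.prf (I_CORE.prf I_GOOD.prf I_HIGH3.prf I_LOW.low) step (I_START.prf I_ESC.prf I_EXIT.prf)

theorem result {V : Type u} [Countable V] [Infinite V] [MeasurableSpace V]
    [DiscreteMeasurableSpace V] (G : SimpleGraph V) [G.LocallyFinite] (hG : G.Connected)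
    (hT : ∀ x y : V, ∃ φ : G ≃g G, φ x = y) (o : V)
    (h : (∃ c : ℝ, 0 < c ∧
        ∀ n : ℕ, c * (n : ℝ) ^ 3 ≤ (({x | G.dist o x ≤ n} : Set V).ncard : ℝ)) ∨
      ∀ l, 0 < l → tC G o l ≠ ⊤) :
    (∀ t, 0 < t → 0 < lambdaC G o t ∧ lambdaC G o t ≠ ⊤) ∧
    ContinuousOn (lambdaC G o) (Ioi 0) ∧ StrictAntiOn (lambdaC G o) (Ioi 0) ∧
    (∀ l, 0 < l → 0 < tC G o l ∧ tC G o l ≠ ⊤) ∧
    ContinuousOn (tC G o) (Ioi 0) ∧ StrictAntiOn (tC G o) (Ioi 0) := by
  refine curves_of_finite G hG hT o ?_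
  rcases h with ⟨c, hc, hg⟩ | h
  · exact tC_ne_top_of_growth perc (I_COPY2.prf I_REPL.prf) I_HEAT.prf G hG hT o hc hg
  · exact h

end Pool.Agent.Results.MP_c9ff92_pr.TransitiveGraphs
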